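import Pool.Agent.Run7.h608.BC.ALL

/-!
# Absolutely continuous Bernoulli convolutions: the approximating densities converge almost everywhere

Q2 of the page MP_ddcbd8_an, positive answer. Let `1 < β < 2` and let the Bernoulli convolution `ν_β` be
absolutely continuous with density `h_β`. Then `f_n(x) → h_β(x)` for almost every `x`. (The density is
`dν_β/dx`, the Radon-Nikodym derivative with respect to Lebesgue measure. All `f_n` and `h_β` vanish
outside `[0, 1/(β-1)]`, so the statement about almost every real `x` is the one about the interval.)

Idea of the proof. Fix a Lebesgue point `x` of `h_β`. The values `(P^n φ)(x)`, `P` the transfer operator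
of the recursion, are sums of values of `φ` with positive weights at points which depend on `x`, `n`. For
`φ = ψ * h_β` they converge to `h_β(x) ∫ ψ` by Lebesgue differentiation. On the Fourier side this gives all band
limited `φ` whose Fourier transform vanishes near the zeros of the Fourier transform of `h_β`. The zeros
are removed with the help of the factor `∏_{j<k} cos(π β^j ξ)` of `P^k`, which tends to zero for every
`ξ ≠ 0` by the Riemann-Lebesgue lemma and an arithmetic argument (here absolute continuity is used again:
for Pisot numbers the factor need not tend to zero).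
-/

set_option autoImplicit false

open MeasureTheory Filter Topology Set
open scoped ENNReal

namespace Pool.Agent.Results.MP_ddcbd8_an.DensitiesConverge

/-- The fair coin: the uniform probability measure on `{false, true}`. -/
noncomputable def coin : Measure Bool :=
  (2⁻¹ : ℝ≥0∞) • Measure.dirac false + (2⁻¹ : ℝ≥0∞) • Measure.dirac true

/-- The digit `0` or `1`. -/
def dig (b : Bool) : ℝ := if b then 1 else 0

/-- `∑_{k ≥ 1} a_k β^(-k)` (the digits are indexed from `0` here). -/
noncomputable def expansion (β : ℝ) (a : ℕ → Bool) : ℝ := ∑' k : ℕ, dig (a k) * (β⁻¹) ^ (k + 1)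

/-- The Bernoulli convolution: the law of `∑_{k ≥ 1} a_k β^(-k)` with `a_k` independent and
uniform on `{0, 1}`. -/
noncomputable def bernoulliConv (β : ℝ) : Measure ℝ :=
  (Measure.infinitePi (fun _ : ℕ => coin)).map (expansion β)

/-- The densities `f_n`: `f_0 = (β - 1) 1_{[0, 1/(β-1)]}` and
`f_{n+1}(x) = (β/2) (f_n(β x) + f_n(β x - 1))`. (These functions vanish outside `[0, 1/(β-1)]`.) -/
noncomputable def f (β : ℝ) : ℕ → ℝ → ℝ
  | 0 => (Icc 0 (1 / (β - 1))).indicator (fun _ => β - 1)
  | n + 1 => fun x => β / 2 * (f β n (β * x) + f β n (β * x - 1))

lemma f_same (β : ℝ) (n : ℕ) (x : ℝ) : f β n x = Run7.h608.BC.f β n x := by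
  induction n generalizing x with
  | zero => rfl
  | succ n ih =>
    unfold f Run7.h608.BC.f
    rw [ih, ih]

/-- **Q2.** If the Bernoulli convolution `ν_β` is absolutely continuous then `f_n(x)` converges for almost
every `x` to its density. -/
theorem result (β : ℝ) (hβ : 1 < β) (hβ2 : β < 2) (hac : bernoulliConv β ≪ volume) :
    ∀ᵐ x ∂(volume : Measure ℝ), Tendsto (fun n => f β n x) atTop
      (𝓝 ((bernoulliConv β).rnDeriv volume x).toReal) := by
  have h := Run7.h608.BC.t_ALL β hβ hβ2 hac
  filter_upwards [h] with x hx
  refine hx.congr fun n => ?_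
  rw [f_same]

end Pool.Agent.Results.MP_ddcbd8_an.DensitiesConverge
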